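import Pool.Agent.Helper78.MG.Goals

/-!
# Packet MG-DIM
-/

namespace Pool.Agent.Helper49.MG

open Pool.Agent.Helper78.MG
open scoped Classical

theorem dim (hTri : TriStmt) (hSpn : SpnStmt) : DimStmt := by
  intro m M D k N z S hS b A
  choose Q hQd hQ using hS
  have hcard : Fintype.card (Fin M × {T : Finset (Fin k) // T.card ≤ D}) = M * bin k D := by
    rw [Fintype.card_prod, Fintype.card_fin, (hSpn m k D b A 0 (by simp)).2]
  let e : Fin (M * bin k D) ≃ Fin M × {T : Finset (Fin k) // T.card ≤ D} :=
    (Fintype.equivFinOfCardEq hcard).symm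
  let s : Fin (M * bin k D) → (Fin k → ZMod 2) → ZMod 2 := fun a y =>
    z (e a).1 (phi b A y) * ∏ l ∈ (e a).2.1, y l
  let h : Fin N → (Fin k → ZMod 2) → ZMod 2 := fun i y =>
    ∑ j, z j (phi b A y) *
      MvPolynomial.eval (fun i => if phi b A y i then (1 : ZMod 2) else 0) (Q i j)
  have hmul : ∀ (j : Fin M) (P : (Fin k → ZMod 2) → ZMod 2),
      P ∈ Submodule.span (ZMod 2) (Set.range fun (T : {T : Finset (Fin k) // T.card ≤ D})
        (y : Fin k → ZMod 2) => ∏ l ∈ T.1, y l) →
      (fun y => z j (phi b A y) * P y) ∈ Submodule.span (ZMod 2) (Set.range s) := by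
    intro j P hP
    induction hP using Submodule.span_induction with
    | mem x hx =>
      obtain ⟨T, rfl⟩ := hx
      refine Submodule.subset_span ⟨e.symm (j, T), ?_⟩
      funext y
      simp only [s, Equiv.apply_symm_apply]
    | zero =>
      have : (fun y => z j (phi b A y) * (0 : (Fin k → ZMod 2) → ZMod 2) y) =
          (0 : (Fin k → ZMod 2) → ZMod 2) := by
        funext y
        simp
      rw [this]
      exact Submodule.zero_mem _
    | add x y hx hy ihx ihy =>
      have : (fun w => z j (phi b A w) * (x + y) w) =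
          (fun w => z j (phi b A w) * x w) + (fun w => z j (phi b A w) * y w) := by
        funext w
        simp only [Pi.add_apply]
        ring
      rw [this]
      exact Submodule.add_mem _ ihx ihy
    | smul a x hx ih =>
      have : (fun w => z j (phi b A w) * (a • x) w) =
          a • (fun w => z j (phi b A w) * x w) := by
        funext w
        simp only [Pi.smul_apply, smul_eq_mul]
        ring
      rw [this]
      exact Submodule.smul_mem _ _ ih
  have hspan : ∀ i, h i ∈ Submodule.span (ZMod 2) (Set.range s) := by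
    intro i
    have : h i = ∑ j, (fun y => z j (phi b A y) *
        MvPolynomial.eval (fun i => if phi b A y i then (1 : ZMod 2) else 0) (Q i j)) := by
      funext y
      simp only [h, Finset.sum_apply]
    rw [this]
    refine Submodule.sum_mem _ fun j _ => ?_
    exact hmul j _ (hSpn m k D b A (Q i j) (hQd i j)).1
  have h01 : ∀ x : ZMod 2, x ≠ 1 ↔ x = 0 := by decide
  have hmem : ∀ i y, phi b A y ∈ S i ↔ h i y = 1 := fun i y => hQ i (phi b A y)
  have := hTri (Fin k → ZMod 2) (M * bin k D) N s h hspan
  refine le_trans (Finset.card_le_card ?_) this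
  intro i hi
  obtain ⟨y, hy, hj⟩ := (@Finset.mem_filter _ _ (_) _ _).1 hi |>.2
  refine (@Finset.mem_filter _ _ (_) _ _).2
    ⟨Finset.mem_univ _, y, (hmem i y).1 hy, fun j hji => (h01 _).1 fun h1 => ?_⟩
  exact hj j hji ((hmem j y).2 h1)

end Pool.Agent.Helper49.MG
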